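import Pool.Agent.H11.EL.Targets

/-!
# MP_0b603e_al, module FR (helper58): non-generators
-/

set_option autoImplicit false

open scoped commutatorElement

namespace Pool.Agent.H58.EL

open Pool.Agent.H11.EL

/-- FR -/
theorem pf_fr : T_FR := by
  intro G _ M Z hCF S hS
  set H : Subgroup G := Subgroup.closure S with hH
  have hHZ : H ⊔ Z = ⊤ := by
    rw [← hS, Subgroup.closure_union, Subgroup.closure_eq]
  have hZn : Z.Normal := hCF.nZ
  have hMn : M.Normal := hCF.nM
  have hdec : ∀ g : G, ∃ h ∈ H, ∃ z ∈ Z, h * z = g := by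
    intro g
    have hg : g ∈ H ⊔ Z := by rw [hHZ]; trivial
    exact Subgroup.mem_sup_of_normal_right.1 hg
  have hL : (M ⊓ H).Normal := by
    constructor
    intro n hn g
    obtain ⟨h, hh, z, hz, rfl⟩ := hdec g
    have h1 : z * n * z⁻¹ = n := by
      have := hCF.zM z hz n hn.1
      rw [this]; group
    have h2 : h * z * n * (h * z)⁻¹ = h * n * h⁻¹ := by
      calc h * z * n * (h * z)⁻¹ = h * (z * n * z⁻¹) * h⁻¹ := by group
        _ = h * n * h⁻¹ := by rw [h1]
    rw [h2]
    exact ⟨hMn.conj_mem _ hn.1 _, H.mul_mem (H.mul_mem hh hn.2) (H.inv_mem hh)⟩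
  have hML : M ≤ H := by
    by_contra hne
    have h1 : M ⊓ H ≤ Z := hCF.min _ hL inf_le_left fun h => hne (inf_eq_left.1 h)
    have h2 : M ≤ Z := by
      intro m hm
      obtain ⟨h, hh, z, hz, hhz⟩ := hdec m
      have h3 : h ∈ M := by
        have h4 : h = m * z⁻¹ := by rw [← hhz]; group
        rw [h4]
        exact M.mul_mem hm (M.inv_mem (hCF.lt.le hz))
      rw [← hhz]
      exact Z.mul_mem (h1 ⟨h3, hh⟩) hz
    exact absurd hCF.lt (not_lt_of_ge h2)
  rw [eq_top_iff, ← hHZ]
  exact sup_le le_rfl (hCF.lt.le.trans hML)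

end Pool.Agent.H58.EL
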