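import Pool.Agent.H11.EL.Targets2

/-!
# MP_0b603e_al, module LB (helper58): groups of bounded order
-/

set_option autoImplicit false

open scoped commutatorElement

namespace Pool.Agent.H58.EL

open Pool.Agent.H11.EL

theorem lift_map {r : ℕ} (w : FreeGroup (Fin r)) {G H : Type} [Group G] [Group H] (φ : G →* H)
    (f : Fin r → G) : φ (FreeGroup.lift f w) = FreeGroup.lift (fun i => φ (f i)) w := by
  have : φ.comp (FreeGroup.lift f) = FreeGroup.lift (fun i => φ (f i)) := by
    ext i; simp
  rw [← this]; rfl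

/-- finite groups satisfying `w` are abelian -/
theorem law_abelian (MM : T_MM) {r : ℕ} {w : FreeGroup (Fin r)} (hw : MA w) (n : ℕ) :
    ∀ (Q : Type) [Group Q] [Finite Q], Nat.card Q = n →
      (∀ f : Fin r → Q, FreeGroup.lift f w = 1) → ∀ x y : Q, x * y = y * x := by
  induction n using Nat.strong_induction_on with
  | _ n ih =>
    intro Q _ _ hn hlaw
    refine hw Q (MM Q fun H hH x hx y hy => ?_) hlaw
    have h1 : Nat.card H < n := by
      rw [← hn]
      refine lt_of_le_of_ne (Subgroup.card_le_card_group H) fun h => hH ?_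
      exact Subgroup.eq_top_of_card_eq H h
    have h2 := ih _ h1 H rfl (fun f => by
      apply Subtype.ext
      have := lift_map w H.subtype f
      rw [hlaw] at this
      exact this) ⟨x, hx⟩ ⟨y, hy⟩
    exact congrArg Subtype.val h2

/-- LB -/
theorem pf_lb (SP : T_SP) (MM : T_MM) : T_LB := by
  intro r w hw ρ
  refine ⟨ρ, fun G _ _ hG x y => ?_⟩
  set S : Set G := {x | x ∈ Set.range (fun f : Fin r → G => FreeGroup.lift f w) ∨
      x⁻¹ ∈ Set.range (fun f : Fin r → G => FreeGroup.lift f w)} with hS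
  have hS1 : (1 : G) ∈ S := by
    left
    refine ⟨fun _ => 1, ?_⟩
    have := lift_map w (1 : G →* G) (fun _ : Fin r => (1 : G))
    simpa using this.symm
  have hSinv : ∀ x ∈ S, x⁻¹ ∈ S := by
    rintro x (h | h)
    · exact Or.inr (by rwa [inv_inv])
    · exact Or.inl h
  have hconj : ∀ (g : G), ∀ x ∈ S, g * x * g⁻¹ ∈ S := by
    rintro g x (⟨f, hf⟩ | ⟨f, hf⟩)
    · left
      refine ⟨fun i => g * f i * g⁻¹, ?_⟩
      have := lift_map w (MulAut.conj g).toMonoidHom f
      change FreeGroup.lift (fun i => g * f i * g⁻¹) w = g * x * g⁻¹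
      rw [← hf]
      exact this.symm
    · right
      refine ⟨fun i => g * f i * g⁻¹, ?_⟩
      have := lift_map w (MulAut.conj g).toMonoidHom f
      change FreeGroup.lift (fun i => g * f i * g⁻¹) w = (g * x * g⁻¹)⁻¹
      have h2 : (g * x * g⁻¹)⁻¹ = g * x⁻¹ * g⁻¹ := by group
      rw [h2, ← hf]
      exact this.symm
  have hV : (Subgroup.closure S).Normal := by
    constructor
    intro n hn g
    have h1 : Subgroup.closure S ≤ (Subgroup.closure S).comap (MulAut.conj g).toMonoidHom := by
      rw [Subgroup.closure_le]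
      intro x hx
      exact Subgroup.subset_closure (hconj g x hx)
    exact h1 hn
  have hab := law_abelian MM hw _ (G ⧸ Subgroup.closure S) rfl (fun f => by
    choose g hg using fun i => QuotientGroup.mk'_surjective (Subgroup.closure S) (f i)
    have h1 : f = fun i => QuotientGroup.mk' (Subgroup.closure S) (g i) := funext fun i => (hg i).symm
    rw [h1, ← lift_map]
    exact (QuotientGroup.eq_one_iff _).2 (Subgroup.subset_closure (Or.inl ⟨g, rfl⟩)))
  have hmem : ⁅x, y⁆ ∈ Subgroup.closure S := by
    rw [← QuotientGroup.eq_one_iff]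
    have h1 := hab (x : G ⧸ Subgroup.closure S) (y : G ⧸ Subgroup.closure S)
    rw [commutatorElement_def]
    change (x : G ⧸ Subgroup.closure S) * (y : G ⧸ Subgroup.closure S) *
      (x : G ⧸ Subgroup.closure S)⁻¹ * (y : G ⧸ Subgroup.closure S)⁻¹ = 1
    rw [h1]
    group
  have hcard : Nat.card (Subgroup.closure S) ≤ ρ :=
    (Subgroup.card_le_card_group _).trans hG
  obtain ⟨l, hl, hl'⟩ := SP G S ρ hS1 hSinv inferInstance hcard _ hmem
  refine ⟨List.ofFn l, by simp, fun z hz => ?_, hl'.symm⟩
  rw [List.mem_ofFn] at hz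
  obtain ⟨i, rfl⟩ := hz
  exact hl i

end Pool.Agent.H58.EL
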