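import Pool.Agent.H11.EL.Targets2

/-!
# MP_0b603e_al, module MM (helper58): the theorem of Miller and Moreno
-/

set_option autoImplicit false
set_option linter.unusedSectionVars false

open scoped commutatorElement

namespace Pool.Agent.H58.EL.Mm

open Pool.Agent.H11.EL

/-- the conjugate of a subgroup -/
def cs {G : Type} [Group G] (g : G) (M : Subgroup G) : Subgroup G := (MulAut.conj g).mapSubgroup M

theorem mem_cs {G : Type} [Group G] {g : G} {M : Subgroup G} {x : G} :
    x ∈ cs g M ↔ g⁻¹ * x * g ∈ M := by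
  constructor
  · rintro ⟨y, hy, rfl⟩
    have h1 : g⁻¹ * (g * y * g⁻¹) * g = y := by group
    change g⁻¹ * (g * y * g⁻¹) * g ∈ M
    rw [h1]; exact hy
  · intro h
    refine ⟨g⁻¹ * x * g, h, ?_⟩
    change g * (g⁻¹ * x * g) * g⁻¹ = x
    group

theorem cs_coatom {G : Type} [Group G] (g : G) {M : Subgroup G} (hM : IsCoatom M) :
    IsCoatom (cs g M) := ((MulAut.conj g).mapSubgroup.isCoatom_iff M).2 hM

section

variable {G : Type} [Group G] [Finite G] (hnc : ¬ ∀ x y : G, x * y = y * x)
  (hab : ∀ H : Subgroup G, H ≠ ⊤ → ∀ x ∈ H, ∀ y ∈ H, x * y = y * x)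
  (hs : ∀ N : Subgroup G, N.Normal → N = ⊥ ∨ N = ⊤)
include hnc hab hs

theorem center_bot : Subgroup.center G = ⊥ := by
  rcases hs (Subgroup.center G) inferInstance with h | h
  · exact h
  · exfalso
    apply hnc
    intro x y
    have hx : y ∈ Subgroup.center G := by rw [h]; trivial
    exact Subgroup.mem_center_iff.1 hx x

theorem inter_triv {M₁ M₂ : Subgroup G} (h₁ : IsCoatom M₁) (h₂ : IsCoatom M₂) (hne : M₁ ≠ M₂)
    {x : G} (hx₁ : x ∈ M₁) (hx₂ : x ∈ M₂) : x = 1 := by
  have h3 : M₁ ≤ Subgroup.centralizer {x} := fun y hy => by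
    rw [Subgroup.mem_centralizer_iff]
    intro z hz
    rw [Set.mem_singleton_iff] at hz
    rw [hz]
    exact hab M₁ h₁.1 x hx₁ y hy
  have h4 : M₂ ≤ Subgroup.centralizer {x} := fun y hy => by
    rw [Subgroup.mem_centralizer_iff]
    intro z hz
    rw [Set.mem_singleton_iff] at hz
    rw [hz]
    exact hab M₂ h₂.1 x hx₂ y hy
  have h5 : Subgroup.centralizer {x} = ⊤ := by
    by_contra hc
    have e1 : Subgroup.centralizer {x} = M₁ := by
      rcases eq_or_lt_of_le h3 with h | h
      · exact h.symm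
      · exact absurd (h₁.2 _ h) hc
    have e2 : Subgroup.centralizer {x} = M₂ := by
      rcases eq_or_lt_of_le h4 with h | h
      · exact h.symm
      · exact absurd (h₂.2 _ h) hc
    exact hne (e1.symm.trans e2)
  have h6 : x ∈ Subgroup.center G := by
    rw [Subgroup.mem_center_iff]
    intro g
    have hg : g ∈ Subgroup.centralizer {x} := by rw [h5]; trivial
    exact ((Subgroup.mem_centralizer_iff.1 hg) x rfl).symm
  rw [center_bot hnc hab hs, Subgroup.mem_bot] at h6
  exact h6

theorem coatom_ne_bot {M : Subgroup G} (hM : IsCoatom M) : M ≠ ⊥ := by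
  intro h
  apply hnc
  have hcom : ∀ x : G, x ≠ 1 → ∀ y z : G, y * z = z * y := by
    intro x hx
    have h1 : Subgroup.zpowers x = ⊤ := by
      refine hM.2 _ ?_
      rw [h, bot_lt_iff_ne_bot]
      intro h2
      apply hx
      have : x ∈ Subgroup.zpowers x := Subgroup.mem_zpowers x
      rwa [h2, Subgroup.mem_bot] at this
    intro y z
    have hy : y ∈ Subgroup.zpowers x := by rw [h1]; trivial
    have hz : z ∈ Subgroup.zpowers x := by rw [h1]; trivial
    obtain ⟨a, rfl⟩ := hy
    obtain ⟨b, rfl⟩ := hz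
    change x ^ a * x ^ b = x ^ b * x ^ a
    rw [← zpow_add, ← zpow_add, add_comm]
  intro x y
  by_cases hx : x = 1
  · rw [hx]; simp
  · exact hcom x hx x y

theorem coatom_conj_eq {M : Subgroup G} (hM : IsCoatom M) {g : G} (h : cs g M = M) : g ∈ M := by
  have h1 : M ≤ Subgroup.normalizer (M : Set G) := Subgroup.le_normalizer
  have h2 : g ∈ Subgroup.normalizer (M : Set G) := by
    rw [Subgroup.mem_normalizer_iff]
    intro x
    constructor
    · intro hx
      have : g * x * g⁻¹ ∈ cs g M := mem_cs.2 (by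
        have h3 : g⁻¹ * (g * x * g⁻¹) * g = x := by group
        rw [h3]; exact hx)
      rw [h] at this
      exact this
    · intro hx
      have hx' : g * x * g⁻¹ ∈ cs g M := by rw [h]; exact hx
      have h3 := mem_cs.1 hx'
      have h4 : g⁻¹ * (g * x * g⁻¹) * g = x := by group
      rwa [h4] at h3
  rcases eq_or_lt_of_le h1 with h3 | h3
  · rw [h3]; exact h2
  · exfalso
    have h4 : M.Normal := Subgroup.normalizer_eq_top_iff.1 (hM.2 _ h3)
    rcases hs M h4 with h5 | h5
    · exact coatom_ne_bot hnc hab hs hM h5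
    · exact hM.1 h5

end

/-- the non-trivial elements of the conjugates of a maximal subgroup -/
def U {G : Type} [Group G] (M : Subgroup G) : Set G := {x | x ≠ 1 ∧ ∃ g : G, x ∈ cs g M}

theorem cs_cs {G : Type} [Group G] (g h : G) (M : Subgroup G) : cs g (cs h M) = cs (g * h) M := by
  ext x
  rw [mem_cs, mem_cs, mem_cs]
  have : h⁻¹ * (g⁻¹ * x * g) * h = (g * h)⁻¹ * x * (g * h) := by group
  rw [this]

theorem cs_one {G : Type} [Group G] (M : Subgroup G) : cs 1 M = M := by
  ext x
  rw [mem_cs]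
  simp

theorem card_ne_one {M : Type} [Group M] [Finite M] :
    Nat.card {m : M // m ≠ 1} + 1 = Nat.card M := by
  classical
  rw [← Nat.card_congr (Equiv.sumCompl (fun m : M => m = 1)), Nat.card_sum, add_comm]
  congr 1
  rw [Nat.card_unique]

section

variable {G : Type} [Group G] [Finite G] (hnc : ¬ ∀ x y : G, x * y = y * x)
  (hab : ∀ H : Subgroup G, H ≠ ⊤ → ∀ x ∈ H, ∀ y ∈ H, x * y = y * x)
  (hs : ∀ N : Subgroup G, N.Normal → N = ⊥ ∨ N = ⊤)
include hnc hab hs

theorem card_U {M : Subgroup G} (hM : IsCoatom M) :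
    Nat.card (U M) = M.index * Nat.card {m : M // m ≠ 1} := by
  rw [Subgroup.index, ← Nat.card_prod]
  symm
  refine Nat.card_congr (Equiv.ofBijective (fun p : (G ⧸ M) × {m : M // m ≠ 1} =>
    (⟨p.1.out * (p.2.1 : G) * p.1.out⁻¹, ?_, p.1.out, ?_⟩ : U M)) ⟨?_, ?_⟩)
  · intro h
    apply p.2.2
    apply Subtype.ext
    have h1 : (p.2.1 : G) = p.1.out⁻¹ * (p.1.out * (p.2.1 : G) * p.1.out⁻¹) * p.1.out := by group
    rw [h1, h]
    simp
  · rw [mem_cs]
    have h1 : p.1.out⁻¹ * (p.1.out * (p.2.1 : G) * p.1.out⁻¹) * p.1.out = (p.2.1 : G) := by group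
    rw [h1]
    exact p.2.1.2
  · rintro ⟨q, m⟩ ⟨q', m'⟩ h
    have h0 : q.out * (m.1 : G) * q.out⁻¹ = q'.out * (m'.1 : G) * q'.out⁻¹ :=
      congrArg Subtype.val h
    have hq : q = q' := by
      by_contra hne
      have hcs : cs q.out M ≠ cs q'.out M := by
        intro hc
        apply hne
        have h1 : cs (q'.out⁻¹ * q.out) M = M := by
          rw [← cs_cs, hc, cs_cs, inv_mul_cancel, cs_one]
        have h2 := coatom_conj_eq hnc hab hs hM h1
        have h3 : (q'.out : G ⧸ M) = q.out := QuotientGroup.eq.2 h2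
        rw [QuotientGroup.out_eq', QuotientGroup.out_eq'] at h3
        exact h3.symm
      have h4 := inter_triv hnc hab hs (cs_coatom q.out hM) (cs_coatom q'.out hM) hcs
        (x := q.out * (m.1 : G) * q.out⁻¹) (by
          rw [mem_cs]
          have h1 : q.out⁻¹ * (q.out * (m.1 : G) * q.out⁻¹) * q.out = (m.1 : G) := by group
          rw [h1]; exact m.1.2) (by
          rw [h0, mem_cs]
          have h1 : q'.out⁻¹ * (q'.out * (m'.1 : G) * q'.out⁻¹) * q'.out = (m'.1 : G) := by group
          rw [h1]; exact m'.1.2)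
      apply m.2
      apply Subtype.ext
      have h1 : (m.1 : G) = q.out⁻¹ * (q.out * (m.1 : G) * q.out⁻¹) * q.out := by group
      rw [h1, h4]
      simp
    subst hq
    have h5 : (m.1 : G) = m'.1 := by
      have h1 := mul_right_cancel h0
      exact mul_left_cancel h1
    have h6 : m = m' := Subtype.ext (Subtype.ext h5)
    rw [h6]
  · rintro ⟨x, hx1, g, hx⟩
    rw [mem_cs] at hx
    have h1 : ((g : G ⧸ M).out)⁻¹ * g ∈ M := by
      rw [← QuotientGroup.eq, QuotientGroup.out_eq']
    set o : G := (g : G ⧸ M).out with ho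
    have h2 : o⁻¹ * x * o ∈ M := by
      have h3 : o⁻¹ * x * o = (o⁻¹ * g) * (g⁻¹ * x * g) * (o⁻¹ * g)⁻¹ := by group
      rw [h3]
      exact M.mul_mem (M.mul_mem h1 hx) (M.inv_mem h1)
    refine ⟨⟨(g : G ⧸ M), ⟨⟨o⁻¹ * x * o, h2⟩, fun h => hx1 ?_⟩⟩, ?_⟩
    · have h4 : o⁻¹ * x * o = 1 := congrArg Subtype.val h
      have h5 : x = o * (o⁻¹ * x * o) * o⁻¹ := by group
      rw [h5, h4]
      simp
    · apply Subtype.ext
      change o * (o⁻¹ * x * o) * o⁻¹ = x
      group

theorem card_U_bounds {M : Subgroup G} (hM : IsCoatom M) :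
    Nat.card G ≤ 2 * Nat.card (U M) ∧ Nat.card (U M) + 1 < Nat.card G := by
  have h1 := card_U hnc hab hs hM
  have h2 : Nat.card {m : M // m ≠ 1} + 1 = Nat.card M := card_ne_one
  have h3 : M.index * Nat.card M = Nat.card G := by
    rw [mul_comm]; exact Subgroup.card_mul_index M
  have h4 : 2 ≤ Nat.card M := by
    have := (Subgroup.one_lt_card_iff_ne_bot M).2 (coatom_ne_bot hnc hab hs hM)
    omega
  have h5 : 1 < M.index := by
    have h6 : M.index ≠ 0 := Subgroup.index_ne_zero_of_finite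
    have h7 : M.index ≠ 1 := fun h => hM.1 (Subgroup.index_eq_one.1 h)
    omega
  rw [h1, ← h3, ← h2]
  constructor
  · have : 1 ≤ Nat.card {m : M // m ≠ 1} := by omega
    nlinarith
  · rw [Nat.mul_add]
    omega

theorem absurd_simple : False := by
  have hnt : Nontrivial G := by
    by_contra h
    rw [not_nontrivial_iff_subsingleton] at h
    exact hnc fun x y => Subsingleton.elim _ _
  obtain ⟨M, hM, -⟩ := (eq_top_or_exists_le_coatom (⊥ : Subgroup G)).resolve_left bot_ne_top
  obtain ⟨hM1, hM2⟩ := card_U_bounds hnc hab hs hM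
  have hex : ∃ x : G, x ≠ 1 ∧ x ∉ U M := by
    by_contra hc
    push Not at hc
    have h1 : (Set.univ : Set G) ⊆ insert 1 (U M) := by
      intro x _
      by_cases hx : x = 1
      · exact Or.inl hx
      · exact Or.inr (hc x hx)
    have h2 := Set.ncard_le_ncard h1 (Set.toFinite _)
    have h3 := Set.ncard_insert_le (1 : G) (U M)
    rw [Set.ncard_univ] at h2
    have h4 : (U M).ncard = Nat.card (U M) := rfl
    omega
  obtain ⟨x, hx1, hx2⟩ := hex
  have hz : Subgroup.zpowers x ≠ ⊤ := by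
    intro h
    apply hnc
    intro y z
    have hy : y ∈ Subgroup.zpowers x := by rw [h]; trivial
    have hz : z ∈ Subgroup.zpowers x := by rw [h]; trivial
    obtain ⟨a, rfl⟩ := hy
    obtain ⟨b, rfl⟩ := hz
    change x ^ a * x ^ b = x ^ b * x ^ a
    rw [← zpow_add, ← zpow_add, add_comm]
  obtain ⟨M₂, hM', hxM⟩ := (eq_top_or_exists_le_coatom (Subgroup.zpowers x)).resolve_left hz
  have hxM2 : x ∈ M₂ := hxM (Subgroup.mem_zpowers x)
  obtain ⟨hM3, -⟩ := card_U_bounds hnc hab hs hM'
  have hdisj : Disjoint (U M) (U M₂) := by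
    rw [Set.disjoint_left]
    rintro z ⟨hz1, g, hg⟩ ⟨-, h, hh⟩
    by_cases hc : cs g M = cs h M₂
    · apply hx2
      refine ⟨hx1, h⁻¹ * g, ?_⟩
      rw [← cs_cs, hc, cs_cs, inv_mul_cancel, cs_one]
      exact hxM2
    · exact hz1 (inter_triv hnc hab hs (cs_coatom g hM) (cs_coatom h hM') hc hg hh)
  have h1 : (U M ∪ U M₂).ncard = (U M).ncard + (U M₂).ncard :=
    Set.ncard_union_eq hdisj (Set.toFinite _) (Set.toFinite _)
  have h2 : (1 : G) ∉ U M ∪ U M₂ := by
    rintro (h | h)
    · exact h.1 rfl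
    · exact h.1 rfl
  have h3 := Set.ncard_insert_of_notMem h2 (Set.toFinite _)
  have h4 : (insert 1 (U M ∪ U M₂)).ncard ≤ Nat.card G := by
    rw [← Set.ncard_univ]
    exact Set.ncard_le_ncard (Set.subset_univ _) (Set.toFinite _)
  have h5 : (U M).ncard = Nat.card (U M) := rfl
  have h6 : (U M₂).ncard = Nat.card (U M₂) := rfl
  omega

end

theorem exists_normal {G : Type} [Group G] [Finite G] (hnc : ¬ ∀ x y : G, x * y = y * x)
    (hab : ∀ H : Subgroup G, H ≠ ⊤ → ∀ x ∈ H, ∀ y ∈ H, x * y = y * x) :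
    ∃ N : Subgroup G, N.Normal ∧ N ≠ ⊥ ∧ N ≠ ⊤ := by
  by_contra hc
  push Not at hc
  refine absurd_simple hnc hab fun N hN => ?_
  by_cases h : N = ⊥
  · exact Or.inl h
  · exact Or.inr (hc N hN h)

theorem derived_two_of {G : Type} [Group G]
    (h : ∀ x ∈ commutator G, ∀ y ∈ commutator G, x * y = y * x) : derivedSeries G 2 = ⊥ := by
  change ⁅derivedSeries G 1, derivedSeries G 1⁆ = ⊥
  rw [derivedSeries_one, Subgroup.commutator_eq_bot_iff_le_centralizer]
  intro x hx
  rw [Subgroup.mem_centralizer_iff]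
  intro y hy
  exact h y hy x hx

end Pool.Agent.H58.EL.Mm

namespace Pool.Agent.H58.EL

open Pool.Agent.H11.EL

/-- MM -/
theorem pf_mm : T_MM := by
  suffices h : ∀ n : ℕ, ∀ (G : Type) [Group G] [Finite G], Nat.card G = n →
      (∀ H : Subgroup G, H ≠ ⊤ → ∀ x ∈ H, ∀ y ∈ H, x * y = y * x) → derivedSeries G 2 = ⊥ from
    fun G _ _ hab => h _ G rfl hab
  intro n
  induction n using Nat.strong_induction_on with
  | _ n ih =>
    intro G _ _ hn hab
    by_cases hc : ∀ x y : G, x * y = y * x
    · exact Mm.derived_two_of fun x _ y _ => hc x y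
    · obtain ⟨N, hN, hNb, hNt⟩ := Mm.exists_normal hc hab
      have hquo : derivedSeries (G ⧸ N) 2 = ⊥ := by
        have h1 : 1 < Nat.card N := (Subgroup.one_lt_card_iff_ne_bot N).2 hNb
        have h2 : Nat.card (G ⧸ N) * Nat.card N = n := by
          rw [← hn]; exact (Subgroup.card_eq_card_quotient_mul_card_subgroup N).symm
        have h3 : 0 < Nat.card (G ⧸ N) := Nat.card_pos
        have h4 : Nat.card (G ⧸ N) < n := by nlinarith
        refine ih _ h4 (G ⧸ N) rfl fun K hK x hx y hy => ?_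
        obtain ⟨a, rfl⟩ := QuotientGroup.mk'_surjective N x
        obtain ⟨b, rfl⟩ := QuotientGroup.mk'_surjective N y
        have h5 : K.comap (QuotientGroup.mk' N) ≠ ⊤ := by
          intro h
          apply hK
          rw [eq_top_iff]
          intro z _
          obtain ⟨c, rfl⟩ := QuotientGroup.mk'_surjective N z
          have : c ∈ K.comap (QuotientGroup.mk' N) := by rw [h]; trivial
          exact this
        have h6 := hab _ h5 a hx b hy
        rw [← map_mul, h6, map_mul]
      have hs1 : Group.IsSolvable (G ⧸ N) := ⟨2, hquo⟩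
      have hs2 : Group.IsSolvable N := Group.isSolvable_of_comm fun a b =>
        Subtype.ext (hab N hNt a a.2 b b.2)
      have hs3 : Group.IsSolvable G := (Group.isSolvable_iff_subgroup_quotient N).2 ⟨hs2, hs1⟩
      have hnt : Nontrivial G := by
        by_contra h
        rw [not_nontrivial_iff_subsingleton] at h
        exact hc fun x y => Subsingleton.elim _ _
      have h7 : commutator G < ⊤ := Group.IsSolvable.commutator_lt_top_of_nontrivial G
      exact Mm.derived_two_of (hab _ h7.ne)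

end Pool.Agent.H58.EL
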