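import Pool.Agent.H11.EL.Targets2

/-!
# MP_0b603e_al, module CP (helper58): finite soluble groups with Hall subgroups of bounded
complexity
-/

set_option autoImplicit false

open scoped commutatorElement

namespace Pool.Agent.H58.EL

open Pool.Agent.H11.EL

theorem cx_mono {ρ k : ℕ} {G : Type} [Group G] (h : Cx ρ k G) (j : ℕ) : Cx ρ (k + j) G := by
  induction j with
  | zero => exact h
  | succ j ih => exact Or.inl ih

/-- CP -/
theorem pf_cp (HA : T_HA) (CC : T_CC) : T_CP := by
  intro n ρ k
  induction n with
  | zero =>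
    intro G _ _ hG π hprime hπ hK
    have hπ0 : π = ∅ := by simpa using hπ
    exact CC ρ k (⊤ : Subgroup G) G ⟨Subgroup.topEquiv⟩ (hK ⊤ (by simp [hπ0]))
  | succ n ih =>
    intro G _ _ hG π hprime hπ hK
    rcases π.eq_empty_or_nonempty with hπ0 | ⟨p, hp⟩
    · exact cx_mono (CC ρ k (⊤ : Subgroup G) G ⟨Subgroup.topEquiv⟩ (hK ⊤ (by simp [hπ0]))) _
    · have hpp := hprime p hp
      obtain ⟨P, K, hP, hKc, hPK⟩ := HA G hG p hpp
      have : Fact p.Prime := ⟨hpp⟩
      have hPn : Cx ρ 0 P := Or.inl hP.isNilpotent
      have hP2 : Cx ρ (k + n) P := by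
        have := cx_mono hPn (k + n)
        rwa [Nat.zero_add] at this
      have hKs : Group.IsSolvable K := inferInstance
      have hK2 : Cx ρ (k + n) K := by
        refine ih K hKs (π.erase p)
          (fun q hq => hprime q (Finset.mem_of_mem_erase hq)) (by
          rw [Finset.card_erase_of_mem hp]; omega) ?_
        intro K' hK'
        have hi : Function.Injective K.subtype := Subtype.val_injective
        have e : K' ≃* K'.map K.subtype := K'.equivMapOfInjective K.subtype hi
        have h1 : Cx ρ k (K'.map K.subtype) := by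
          refine hK _ fun q hq => ?_
          have h2 : Nat.card (K'.map K.subtype) = Nat.card K' := (Nat.card_congr e.toEquiv).symm
          rw [h2]
          by_cases hqp : q = p
          · rw [hqp]
            exact Nat.Coprime.coprime_dvd_left (Subgroup.card_subgroup_dvd_card K') hKc
          · exact hK' q (Finset.mem_erase.2 ⟨hqp, hq⟩)
        exact CC ρ k _ _ ⟨e.symm⟩ h1
      exact Or.inr (Or.inr ⟨P, K, hPK, hP2, hK2⟩)

end Pool.Agent.H58.EL
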