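import Pool.Agent.H11.EL.Targets

/-!
# MP_0b603e_al, module MS (helper58): minimal supplements
-/

set_option autoImplicit false

open scoped commutatorElement

namespace Pool.Agent.H58.EL

open Pool.Agent.H11.EL

/-- MS -/
theorem pf_ms : T_MS := by
  intro G _ _ N hN
  obtain ⟨C, hC, hmin⟩ := (wellFounded_lt (α := Subgroup G)).has_min
    {C : Subgroup G | C ⊔ N = ⊤} ⟨⊤, top_sup_eq N⟩
  have hC' : C ⊔ N = ⊤ := hC
  refine ⟨C, fun g => ?_, ?_⟩
  · have hg : g ∈ C ⊔ N := by rw [hC']; trivial
    obtain ⟨a, ha, b, hb, h⟩ := Subgroup.mem_sup_of_normal_right.1 hg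
    exact ⟨a, ha, b, hb, h.symm⟩
  · have hfr : frattini C = sInf {X : Subgroup C | IsCoatom X} := by
      unfold frattini Order.radical
      rw [sInf_eq_iInf]
    rw [hfr]
    refine le_sInf fun X hX => ?_
    by_contra hle
    have hsup : X ⊔ N.subgroupOf C = ⊤ := by
      refine hX.2 _ (lt_of_le_of_ne le_sup_left fun h => hle ?_)
      rw [h]
      exact le_sup_right
    have h1 : C ≤ X.map C.subtype ⊔ N := by
      have h2 : (X ⊔ N.subgroupOf C).map C.subtype = C := by
        rw [hsup, ← MonoidHom.range_eq_map, Subgroup.range_subtype]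
      rw [Subgroup.map_sup] at h2
      refine le_trans h2.ge (sup_le_sup_left ?_ _)
      rw [Subgroup.subgroupOf_map_subtype]
      exact inf_le_left
    have h3 : X.map C.subtype ⊔ N = ⊤ := by
      rw [eq_top_iff, ← hC']
      exact sup_le h1 le_sup_right
    have h4 : X.map C.subtype ≤ C := Subgroup.map_subtype_le X
    have h5 : X.map C.subtype = C := by
      by_contra hne
      exact hmin _ h3 (lt_of_le_of_ne h4 hne)
    apply hX.1
    rw [eq_top_iff]
    intro x _
    have h6 : (x : G) ∈ X.map C.subtype := by rw [h5]; exact x.2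
    obtain ⟨y, hy, hyx⟩ := h6
    have h7 : y = x := Subtype.ext hyx
    rwa [← h7]

end Pool.Agent.H58.EL
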