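import Pool.Agent.H11.EL.Targets

/-!
# MP_0b603e_al, module PR (helper58): groups which are nilpotent away from boundedly many primes
-/

set_option autoImplicit false

open scoped commutatorElement

namespace Pool.Agent.H58.EL

open Pool.Agent.H11.EL

/-- PR -/
theorem pf_pr (EX : T_EX) (NI : T_NI) (MG : T_MG) (HA : T_HA) : T_PR := by
  intro r w hw ρ
  obtain ⟨L, σ, hσ, hL⟩ := EX r w hw
  have hnil : ∀ (P : Type) [Group P], Group.IsNilpotent P → ∀ x y : P, PW w (2 * L) ⁅x, y⁆ := by
    intro P _ hP x y
    obtain ⟨h, k, hk⟩ := NI σ hσ P hP x y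
    rw [hk, two_mul]
    exact (hL P x h).mul (hL P y k)
  have hsub : ∀ (G : Type) [Group G] (P : Subgroup G), Group.IsNilpotent P →
      ∀ x ∈ P, ∀ y ∈ P, PW w (2 * L) ⁅x, y⁆ := by
    intro G _ P hP x hx y hy
    exact (hnil P hP ⟨x, hx⟩ ⟨y, hy⟩).map P.subtype
  induction ρ with
  | zero =>
    refine ⟨2 * L, fun G _ _ _ π hπ _ hK x y => ?_⟩
    have hπ0 : π = ∅ := by simpa using hπ
    have h1 : Group.IsNilpotent (⊤ : Subgroup G) := hK ⊤ (by simp [hπ0])
    exact hsub G ⊤ h1 x trivial y trivial
  | succ ρ ih =>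
    obtain ⟨M₀, hM₀⟩ := ih
    obtain ⟨M₁, hM₁⟩ := MG r w hw (2 * L) M₀
    refine ⟨max (2 * L) M₁, fun G _ _ hG π hπ hprime hK x y => ?_⟩
    rcases π.eq_empty_or_nonempty with hπ0 | ⟨p, hp⟩
    · have h1 : Group.IsNilpotent (⊤ : Subgroup G) := hK ⊤ (by simp [hπ0])
      exact (hsub G ⊤ h1 x trivial y trivial).mono (le_max_left _ _)
    · have hpp := hprime p hp
      obtain ⟨P, K, hP, hKc, hPK⟩ := HA G hG p hpp
      have : Fact p.Prime := ⟨hpp⟩
      refine (hM₁ G P K hPK (hsub G P hP.isNilpotent) ?_ x y).mono (le_max_right _ _)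
      have hKs : Group.IsSolvable K := inferInstance
      have key := hM₀ K hKs (π.erase p) (by
        rw [Finset.card_erase_of_mem hp]; omega)
        (fun q hq => hprime q (Finset.mem_of_mem_erase hq)) (by
          intro K' hK'
          have hi : Function.Injective K.subtype := Subtype.val_injective
          have e : K' ≃* K'.map K.subtype := K'.equivMapOfInjective K.subtype hi
          have h1 : Group.IsNilpotent (K'.map K.subtype) := by
            refine hK _ fun q hq => ?_
            have h2 : Nat.card (K'.map K.subtype) = Nat.card K' := (Nat.card_congr e.toEquiv).symm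
            rw [h2]
            by_cases hqp : q = p
            · rw [hqp]
              exact Nat.Coprime.coprime_dvd_left (Subgroup.card_subgroup_dvd_card K') hKc
            · exact hK' q (Finset.mem_erase.2 ⟨hqp, hq⟩)
          exact Group.nilpotent_of_mulEquiv e.symm)
      intro a ha b hb
      exact (key ⟨a, ha⟩ ⟨b, hb⟩).map K.subtype

end Pool.Agent.H58.EL
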